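import Pool.Agent.Y557.U.AbK
import Pool.Agent.Y557.NF.Mason
import Mathlib

/-!
Definitions for the abc inequality on all split thin sets over the Gaussian integers (helper557).
-/

set_option autoImplicit false

namespace Pool.Agent.Results.MP_dc323a_nt.AllThinSetsAtOnce

open Polynomial

/-- the field of fractions `ℚ(i)` of the Gaussian integers -/
abbrev Qi : Type := FractionRing GaussianInt

/-- `max {|a|, |b|, |a + b|}` -/
noncomputable def size (a b : GaussianInt) : ℝ :=
  max ‖GaussianInt.toComplex a‖ (max ‖GaussianInt.toComplex b‖ ‖GaussianInt.toComplex (a + b)‖)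

/-- `rad(n)`: the product of `|Q|` over the Gaussian primes `Q` dividing `n`, one from each class of
associates, namely the one with `Re Q > 0` and `Im Q ≥ 0` -/
noncomputable def rad (n : GaussianInt) : ℝ :=
  ∏ᶠ Q ∈ {Q : GaussianInt | Prime Q ∧ Q ∣ n ∧ (0 < Q.re ∧ 0 ≤ Q.im)}, ‖GaussianInt.toComplex Q‖

/-- `P i` as a polynomial over `ℚ(i)` -/
noncomputable def toQi (P : GaussianInt[X]) : Qi[X] := P.map (algebraMap GaussianInt Qi)

open Classical in
/-- the number of the different points `t` of the projective line over `ℚ(i)` with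
`P 0 (t) P 1 (t) P 2 (t) = 0` (infinity is one of them if some `P i` has degree less than `D`) -/
noncomputable def zeros (D : ℕ) (P : Fin 3 → GaussianInt[X]) : ℕ :=
  (∏ i, toQi (P i)).roots.toFinset.card + if ∃ i, (P i).natDegree < D then 1 else 0

/-- the values of the `P i` at `t`; at infinity, which is `none`, their coefficients of degree
`D` -/
noncomputable def coordinates (D : ℕ) (P : Fin 3 → GaussianInt[X]) : Option Qi → Fin 3 → Qi
  | some t => fun i => (toQi (P i)).eval t
  | none => fun i => (toQi (P i)).coeff D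

/-- a map `t ↦ (P 0 (t), P 1 (t), P 2 (t))` of degree `D` to the solutions of `a + b = c`, given by
polynomials with Gaussian integer coefficients of absolute value at most `H`, coprime over `ℚ(i)`,
all of whose zeros are in `ℚ(i)`; `q` is the number of the points `t` with `abc = 0` -/
structure Curve (D q : ℕ) (H : ℝ) (P : Fin 3 → GaussianInt[X]) : Prop where
  ne_zero : ∀ i, P i ≠ 0
  sum_eq : P 0 + P 1 = P 2
  coprime : IsCoprime (toQi (P 0)) (toQi (P 1))
  splits : ∀ i, (toQi (P i)).Splits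
  degree_le : ∀ i, (P i).natDegree ≤ D
  degree_eq : ∃ i, (P i).natDegree = D
  points : zeros D P = q
  small : ∀ i k, ‖GaussianInt.toComplex ((P i).coeff k)‖ ≤ H

/-- the pairs `(a, b)` of coprime Gaussian integers with `a b c ≠ 0`, where `c = a + b` -/
def Triples : Set (GaussianInt × GaussianInt) :=
  {p | p.1 ≠ 0 ∧ p.2 ≠ 0 ∧ p.1 + p.2 ≠ 0 ∧ IsCoprime p.1 p.2}

/-- those for which `(a, b, c)` is proportional to `(P 0 (t), P 1 (t), P 2 (t))` for some point `t`
of the projective line over `ℚ(i)` -/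
def OnCurve (D : ℕ) (P : Fin 3 → GaussianInt[X]) : Set (GaussianInt × GaussianInt) :=
  {p | p ∈ Triples ∧ ∃ (t : Option Qi) (s : Qi),
    algebraMap GaussianInt Qi p.1 = s * coordinates D P t 0 ∧
    algebraMap GaussianInt Qi p.2 = s * coordinates D P t 1}

/-- those with `rad(abc) ≤ X`; there is no condition on the size -/
def ByRadical (D : ℕ) (P : Fin 3 → GaussianInt[X]) (X : ℝ) : Set (GaussianInt × GaussianInt) :=
  {p | p ∈ OnCurve D P ∧ rad (p.1 * p.2 * (p.1 + p.2)) ≤ X}

/-- the union of these sets over all curves with coefficients at most `X ^ η` -/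
def AllByRadical (D q : ℕ) (η X : ℝ) : Set (GaussianInt × GaussianInt) :=
  {p | ∃ P : Fin 3 → GaussianInt[X], Curve D q (X ^ η) P ∧ p ∈ ByRadical D P X}

/-- the triples in this union which violate `max {|a|, |b|, |c|} < C rad(abc) ^ M` -/
def Exceptions (D q : ℕ) (η M C X : ℝ) : Set (GaussianInt × GaussianInt) :=
  {p | p ∈ AllByRadical D q η X ∧ C * rad (p.1 * p.2 * (p.1 + p.2)) ^ M ≤ size p.1 p.2}

/-- Let `D ≥ 1` and `q ≥ 3`.
(0) `q ≥ D + 2` for all curves.
(1) For every `δ > 0` there is `η > 0` such that the number of the coprime triples of Gaussian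
integers with `rad(abc) ≤ X`, of whatever size, on all curves with coefficients at most `X ^ η`
together is at most `C X ^ (4 / q + δ)`, and the number of those on each single one is at least
`X ^ (4 / q - δ)` for large `X`.
(2) For every `M > D / q`, for example `M = 1`, there are `η, ν > 0` such that for every `c > 0` at
most `C X ^ (4 / q - ν)` of all these triples, for large `X` at most `X ^ (-ν)` times the number of
those on each single curve, violate `max {|a|, |b|, |c|} < c rad(abc) ^ M`.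
(3) All triples on a curve with coefficients at most `H` satisfy
`rad(abc) ^ D ≤ (C H) ^ C max {|a|, |b|, |c|} ^ q`. -/
def Claim (D q : ℕ) : Prop :=
    (∀ (H : ℝ) (P : Fin 3 → GaussianInt[X]), Curve D q H P → D + 2 ≤ q) ∧
    (∀ δ : ℝ, 0 < δ → ∃ η : ℝ, 0 < η ∧
      (∃ C : ℝ, ∀ X : ℝ, 1 ≤ X → (AllByRadical D q η X).Finite ∧
        ((AllByRadical D q η X).ncard : ℝ) ≤ C * X ^ (4 / (q : ℝ) + δ)) ∧
      ∃ X₀ : ℝ, ∀ X : ℝ, X₀ ≤ X → ∀ P : Fin 3 → GaussianInt[X], Curve D q (X ^ η) P →
        X ^ (4 / (q : ℝ) - δ) ≤ ((ByRadical D P X).ncard : ℝ)) ∧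
    (∀ M : ℝ, (D : ℝ) / q < M → ∃ η ν : ℝ, 0 < η ∧ 0 < ν ∧ ∀ c : ℝ, 0 < c →
      (∃ C : ℝ, ∀ X : ℝ, 1 ≤ X → (Exceptions D q η M c X).Finite ∧
        ((Exceptions D q η M c X).ncard : ℝ) ≤ C * X ^ (4 / (q : ℝ) - ν)) ∧
      ∃ X₀ : ℝ, ∀ X : ℝ, X₀ ≤ X → ∀ P : Fin 3 → GaussianInt[X], Curve D q (X ^ η) P →
        ((Exceptions D q η M c X).ncard : ℝ) ≤ X ^ (-ν) * ((ByRadical D P X).ncard : ℝ)) ∧
    ∃ C : ℝ, 0 < C ∧ ∀ (H : ℝ) (P : Fin 3 → GaussianInt[X]), Curve D q H P →
      ∀ p ∈ OnCurve D P,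
      rad (p.1 * p.2 * (p.1 + p.2)) ^ D ≤ (C * H) ^ C * size p.1 p.2 ^ q

end Pool.Agent.Results.MP_dc323a_nt.AllThinSetsAtOnce
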