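import Pool.Agent.Y557.U.AbK
import Pool.Agent.Y557.NF.Mason
import Mathlib

/-!
Definitions for the abc inequality on all split thin sets over `ℤ[(1 + √5) / 2]` (helper557).
-/

set_option autoImplicit false

namespace Pool.Agent.Results.MP_2a5a28_nt.AllThinSetsAtOnce

open NumberField IsDedekindDomain Polynomial

open Classical in
/-- the number of the different points `t` of the projective line over `K` with
`P 0 (t) P 1 (t) P 2 (t) = 0` (infinity is one of them if some `P i` has degree less than `D`) -/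
noncomputable def zeros {K : Type} [Field K] (D : ℕ) (P : Fin 3 → K[X]) : ℕ :=
  (∏ i, P i).roots.toFinset.card + if ∃ i, (P i).natDegree < D then 1 else 0

variable {K : Type} [Field K] [NumberField K]

/-- the triples in lowest terms with `a + b + c = 0` and `abc ≠ 0` -/
structure Triple (t : 𝓞 K × 𝓞 K × 𝓞 K) : Prop where
  sum : t.1 + t.2.1 + t.2.2 = 0
  ne : t.1 * t.2.1 * t.2.2 ≠ 0
  cop : Ideal.span {t.1, t.2.1, t.2.2} = (⊤ : Ideal (𝓞 K))

/-- the height `H(a, b, c)`: the product over the field embeddings `φ : K → ℂ` (two real ones when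
`K = ℚ(√5)`) of `max (|φ a|, |φ b|, |φ c|)` -/
noncomputable def height (t : 𝓞 K × 𝓞 K × 𝓞 K) : ℝ :=
  ∏ φ : K →+* ℂ, max ‖φ t.1‖ (max ‖φ t.2.1‖ ‖φ t.2.2‖)

/-- the radical: the product of the norms of the prime ideals dividing `abc` -/
noncomputable def rad (t : 𝓞 K × 𝓞 K × 𝓞 K) : ℝ :=
  ∏ᶠ (P : HeightOneSpectrum (𝓞 K)) (_ : t.1 * t.2.1 * t.2.2 ∈ P.asIdeal),
    (Ideal.absNorm P.asIdeal : ℝ)

/-- a map `t ↦ (P 0 (t) : P 1 (t) : P 2 (t))` of degree `D` from the projective line to the line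
`a + b + c = 0`, given by coprime polynomials over `K` all of whose zeros are in `K`; `q` is the
number of the points `t` with `abc = 0`; the vector of all coefficients has (logarithmic) height at
most `B`, relative to `K` -/
structure Curve (D q : ℕ) (B : ℝ) (P : Fin 3 → K[X]) : Prop where
  ne_zero : ∀ i, P i ≠ 0
  sum_zero : P 0 + P 1 + P 2 = 0
  coprime : IsCoprime (P 0) (P 1)
  splits : ∀ i, (P i).Splits
  degree_le : ∀ i, (P i).natDegree ≤ D
  degree_eq : ∃ i, (P i).natDegree = D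
  points : zeros D P = q
  height_le : Height.logHeight (fun i : Fin 3 × Fin (D + 1) => (P i.1).coeff i.2) ≤ B

/-- the coordinates of the image of `t`; `none` is infinity -/
def coordinates (D : ℕ) (P : Fin 3 → K[X]) : Option K → Fin 3 → K
  | some t => fun i => (P i).eval t
  | none => fun i => (P i).coeff D

/-- `Q` is the image of a point of the projective line over `K`, and it is the class `(a : b : c)`
of the triple `(a, b, c)` -/
def IsClass (D : ℕ) (P : Fin 3 → K[X]) (Q : Projectivization K (Fin 3 → K))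
    (t : 𝓞 K × 𝓞 K × 𝓞 K) : Prop :=
  ∃ (τ : Option K) (hx : coordinates D P τ ≠ 0),
    Q = Projectivization.mk K (coordinates D P τ) hx ∧
    ∃ s : K, s ≠ 0 ∧ (t.1 : K) = s * coordinates D P τ 0 ∧ (t.2.1 : K) = s * coordinates D P τ 1 ∧
      (t.2.2 : K) = s * coordinates D P τ 2

/-- the classes `(a : b : c)`, on the curve, of the triples in lowest terms (these classes are the
triples up to units) with `rad ≤ X`; there is no condition on the height -/
def Classes (D : ℕ) (P : Fin 3 → K[X]) (X : ℝ) : Set (Projectivization K (Fin 3 → K)) :=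
  {Q | ∃ t : 𝓞 K × 𝓞 K × 𝓞 K, Triple t ∧ rad t ≤ X ∧ IsClass D P Q t}

/-- the union of these sets over all curves of height at most `η log X` -/
def AllClasses (K : Type) [Field K] [NumberField K] (D q : ℕ) (η X : ℝ) :
    Set (Projectivization K (Fin 3 → K)) :=
  {Q | ∃ P : Fin 3 → K[X], Curve D q (η * Real.log X) P ∧ Q ∈ Classes D P X}

/-- those classes in this union whose triples violate `H < C rad ^ M` -/
def Exceptions (K : Type) [Field K] [NumberField K] (D q : ℕ) (η M C X : ℝ) :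
    Set (Projectivization K (Fin 3 → K)) :=
  {Q | ∃ P : Fin 3 → K[X], Curve D q (η * Real.log X) P ∧ ∃ t : 𝓞 K × 𝓞 K × 𝓞 K,
    Triple t ∧ rad t ≤ X ∧ IsClass D P Q t ∧ C * rad t ^ M ≤ height t}

/-- Let `K = ℚ(√5)`, `D ≥ 1` and `q ≥ 3`.
(0) `q ≥ D + 2` for all curves.
(1) For every `δ > 0` there is `η > 0` such that the number of the triples, up to units, with
`rad ≤ X`, of whatever height, on all curves of height at most `η log X` together is at most
`C X ^ (2 / q + δ)`, and the number of those on each single one is at least `X ^ (2 / q - δ)` for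
large `X`.
(2) For every `M > D / q`, for example `M = 1`, there are `η, ν > 0` such that for every `c > 0` at
most `C X ^ (2 / q - ν)` of all these triples, for large `X` at most `X ^ (-ν)` times the number of
those on each single curve, violate `H < c rad ^ M`.
(3) All triples on a curve of height at most `B` satisfy `rad ^ D ≤ exp (C (B + 1)) H ^ q`. -/
def Claim : Prop :=
  ∀ (K : Type) [Field K] [NumberField K], Module.finrank ℚ K = 2 → (∃ s : K, s ^ 2 = 5) →
  ∀ D q : ℕ, 1 ≤ D → 3 ≤ q →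
    (∀ (B : ℝ) (P : Fin 3 → K[X]), Curve D q B P → D + 2 ≤ q) ∧
    (∀ δ : ℝ, 0 < δ → ∃ η : ℝ, 0 < η ∧
      (∃ C : ℝ, ∀ X : ℝ, 1 ≤ X → (AllClasses K D q η X).Finite ∧
        ((AllClasses K D q η X).ncard : ℝ) ≤ C * X ^ (2 / (q : ℝ) + δ)) ∧
      ∃ X₀ : ℝ, ∀ X : ℝ, X₀ ≤ X → ∀ P : Fin 3 → K[X], Curve D q (η * Real.log X) P →
        X ^ (2 / (q : ℝ) - δ) ≤ ((Classes D P X).ncard : ℝ)) ∧
    (∀ M : ℝ, (D : ℝ) / q < M → ∃ η ν : ℝ, 0 < η ∧ 0 < ν ∧ ∀ c : ℝ, 0 < c →
      (∃ C : ℝ, ∀ X : ℝ, 1 ≤ X → (Exceptions K D q η M c X).Finite ∧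
        ((Exceptions K D q η M c X).ncard : ℝ) ≤ C * X ^ (2 / (q : ℝ) - ν)) ∧
      ∃ X₀ : ℝ, ∀ X : ℝ, X₀ ≤ X → ∀ P : Fin 3 → K[X], Curve D q (η * Real.log X) P →
        ((Exceptions K D q η M c X).ncard : ℝ) ≤ X ^ (-ν) * ((Classes D P X).ncard : ℝ)) ∧
    ∃ C : ℝ, ∀ (B : ℝ) (P : Fin 3 → K[X]), Curve D q B P →
      ∀ (Q : Projectivization K (Fin 3 → K)) (t : 𝓞 K × 𝓞 K × 𝓞 K), Triple t → IsClass D P Q t →
      rad t ^ D ≤ Real.exp (C * (B + 1)) * height t ^ q

end Pool.Agent.Results.MP_2a5a28_nt.AllThinSetsAtOnce
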