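import Pool.Agent.Y557.U.AbK
import Pool.Agent.Y557.NF.Mason
import Pool.Agent.Y557.WK.Bridge

/-!
Definitions for the weak abc inequality on all split thin sets (helper557).
-/

set_option autoImplicit false

namespace Pool.Agent.Results.MP_f5a5f7_nt.AllThinSetsAtOnce

open NumberField IsDedekindDomain Polynomial

open Classical in
/-- the number of the different points of the projective line over `K` at which the rational
function `f = P 0 / P 2` of degree `D`, with `1 - f = P 1 / P 2`, has one of the values `0`, `1` and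
infinity (infinity is one of them if some `P i` has degree less than `D`) -/
noncomputable def zeros {K : Type} [Field K] (D : ℕ) (P : Fin 3 → K[X]) : ℕ :=
  (∏ i, P i).roots.toFinset.card + if ∃ i, (P i).natDegree < D then 1 else 0

variable {K : Type} [Field K] [NumberField K]

/-- the absolute logarithmic Weil height `h(x)`, as in the problem -/
noncomputable def height (x : K) : ℝ :=
  (1 / (Module.finrank ℚ K : ℝ)) *
    ((∑ w : InfinitePlace K, (w.mult : ℝ) * Real.log (max 1 (w x))) +
      ∑ᶠ v : HeightOneSpectrum (𝓞 K), Real.log (max 1 (FinitePlace.mk v x)))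

/-- the conductor `cond(x)`, as in the problem: the sum of `log N(v) / d` over the primes `v` at
which `x` has a positive valuation -/
noncomputable def cond (x : K) : ℝ :=
  (1 / (Module.finrank ℚ K : ℝ)) *
    (∑ᶠ v : HeightOneSpectrum (𝓞 K),
      (if FinitePlace.mk v x < 1 then Real.log (Ideal.absNorm v.asIdeal : ℝ) else 0))

/-- the sum `cond(x) + cond(1/x) + cond(x - 1)` of the problem -/
noncomputable def conductors (x : K) : ℝ := cond x + cond x⁻¹ + cond (x - 1)

/-- a rational function `f = P 0 / P 2` of degree `D` over `K`, with `1 - f = P 1 / P 2`, in lowest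
terms, such that `f` has the values `0`, `1` and infinity only at points of the projective line over
`K`; `q` is their number; the (absolute logarithmic) height of the vector of all coefficients of the
`P i` is at most `B` -/
structure IsFunction (D q : ℕ) (B : ℝ) (P : Fin 3 → K[X]) : Prop where
  ne_zero : ∀ i, P i ≠ 0
  sum_eq : P 0 + P 1 = P 2
  coprime : IsCoprime (P 0) (P 1)
  splits : ∀ i, (P i).Splits
  degree_le : ∀ i, (P i).natDegree ≤ D
  degree_eq : ∃ i, (P i).natDegree = D
  points : zeros D P = q
  height_le : Height.logHeight (fun i : Fin 3 × Fin (D + 1) => (P i.1).coeff i.2) /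
    (Module.finrank ℚ K : ℝ) ≤ B

/-- the values of the `P i` at `t`; at infinity, which is `none`, their coefficients of degree
`D` -/
def coordinates (D : ℕ) (P : Fin 3 → K[X]) : Option K → Fin 3 → K
  | some t => fun i => (P i).eval t
  | none => fun i => (P i).coeff D

/-- the values `x = f(t)`, `x ≠ 0, 1`, of `f = P 0 / P 2` at the points `t` of the projective line
over `K` with `cond(x) + cond(1/x) + cond(x - 1) ≤ log X`; there is no condition on the height of
`x` -/
def Values (D : ℕ) (P : Fin 3 → K[X]) (X : ℝ) : Set K :=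
  {x | x ≠ 0 ∧ x ≠ 1 ∧ (∃ t : Option K, coordinates D P t 2 ≠ 0 ∧
      x = coordinates D P t 0 / coordinates D P t 2) ∧ Real.exp (conductors x) ≤ X}

/-- the union of these sets over all functions of height at most `η log X` -/
def AllValues (K : Type) [Field K] [NumberField K] (D q : ℕ) (η X : ℝ) : Set K :=
  {x | ∃ P : Fin 3 → K[X], IsFunction D q (η * Real.log X) P ∧ x ∈ Values D P X}

/-- those numbers in this union which violate
`h(x) < κ (cond(x) + cond(1/x) + cond(x - 1)) - c` -/
def Exceptions (K : Type) [Field K] [NumberField K] (D q : ℕ) (η κ c X : ℝ) : Set K :=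
  {x | x ∈ AllValues K D q η X ∧ κ * conductors x ≤ height x + c}

/-- Let `K` be a number field of degree `d`, `D ≥ 1` and `q ≥ 3`.
(0) `q ≥ D + 2` for all functions.
(1) For every `δ > 0` there is `η > 0` such that the number of the values `x ≠ 0, 1`, of whatever
height, with `cond(x) + cond(1/x) + cond(x - 1) ≤ log X`, of all functions of height at most
`η log X` together is at most `C X ^ (2 d / q + δ)`, and that of each single one at least
`X ^ (2 d / q - δ)` for large `X`.
(2) For every `κ > D / q`, for example `κ = 1`, there are `η, ν > 0` such that for every real `c` at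
most `C X ^ (2 d / q - ν)` of all these values, for large `X` at most `X ^ (-ν)` times the number of
those of each single function, violate `h(x) < κ (cond(x) + cond(1/x) + cond(x - 1)) - c`.
(3) For all functions of height at most `B`, all their values `x ≠ 0, 1` satisfy
`D (cond(x) + cond(1/x) + cond(x - 1)) ≤ q h(x) + C (B + 1)`. -/
def Claim (K : Type) [Field K] [NumberField K] (D q : ℕ) : Prop :=
    (∀ (B : ℝ) (P : Fin 3 → K[X]), IsFunction D q B P → D + 2 ≤ q) ∧
    (∀ δ : ℝ, 0 < δ → ∃ η : ℝ, 0 < η ∧
      (∃ C : ℝ, ∀ X : ℝ, 1 ≤ X → (AllValues K D q η X).Finite ∧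
        ((AllValues K D q η X).ncard : ℝ) ≤
          C * X ^ (2 * (Module.finrank ℚ K : ℝ) / (q : ℝ) + δ)) ∧
      ∃ X₀ : ℝ, ∀ X : ℝ, X₀ ≤ X → ∀ P : Fin 3 → K[X], IsFunction D q (η * Real.log X) P →
        X ^ (2 * (Module.finrank ℚ K : ℝ) / (q : ℝ) - δ) ≤ ((Values D P X).ncard : ℝ)) ∧
    (∀ κ : ℝ, (D : ℝ) / q < κ → ∃ η ν : ℝ, 0 < η ∧ 0 < ν ∧ ∀ c : ℝ,
      (∃ C : ℝ, ∀ X : ℝ, 1 ≤ X → (Exceptions K D q η κ c X).Finite ∧
        ((Exceptions K D q η κ c X).ncard : ℝ) ≤
          C * X ^ (2 * (Module.finrank ℚ K : ℝ) / (q : ℝ) - ν)) ∧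
      ∃ X₀ : ℝ, ∀ X : ℝ, X₀ ≤ X → ∀ P : Fin 3 → K[X], IsFunction D q (η * Real.log X) P →
        ((Exceptions K D q η κ c X).ncard : ℝ) ≤ X ^ (-ν) * ((Values D P X).ncard : ℝ)) ∧
    ∃ C : ℝ, ∀ (B : ℝ) (P : Fin 3 → K[X]), IsFunction D q B P → ∀ X : ℝ, ∀ x ∈ Values D P X,
      D * conductors x ≤ q * height x + C * (B + 1)

end Pool.Agent.Results.MP_f5a5f7_nt.AllThinSetsAtOnce
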